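import Mathlib
import Pool.Agent.H10.LadB

set_option autoImplicit false

namespace Pool.Agent.Results.MP_703902_co.Ladder
open Pool.Agent.H10.Lad

theorem result : Infinite (ℤ × Bool) ∧ Countable (ℤ × Bool) ∧ ladder.Connected ∧
    (∀ v, (ladder.neighborSet v).encard ≤ 3) ∧ (∀ a b, ∃ φ : ladder ≃g ladder, φ a = b) ∧
    ∀ u, ZeroPos ladder 3 u := by
  refine ⟨inferInstance, inferInstance, ?_, fun v => ?_, fun a b => ?_, zp⟩
  · have h : ∀ x : ℤ, ladder.Reachable (0, true) (x, true) := fun x => by
      induction x using Int.induction_on with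
      | zero => rfl
      | succ n ih => exact ih.trans (SimpleGraph.Adj.reachable (by simp [ladder]))
      | pred n ih => exact ih.trans (SimpleGraph.Adj.reachable (by simp [ladder]))
    refine (SimpleGraph.connected_iff_exists_forall_reachable _).2 ⟨(0, true), fun ⟨x, y⟩ => ?_⟩
    cases y
    exacts [(h x).trans (SimpleGraph.Adj.reachable (by simp [ladder])), h x]
  · have : ladder.neighborSet v = nb v := by ext; simp [mnb, ladder.adj_comm]
    rw [this, Set.encard_coe_eq_coe_finsetCard]
    exact_mod_cast Finset.card_le_three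
  · refine ⟨⟨⟨fun p => (p.1 + (b.1 - a.1), xor p.2 (xor a.2 b.2)),
      fun p => (p.1 - (b.1 - a.1), xor p.2 (xor a.2 b.2)), fun p => by simp, fun p => by simp⟩,
      ?_⟩, ?_⟩
    · simp only [ladder, Equiv.coe_fn_mk, ne_eq, Bool.xor_left_inj, Bool.xor_right_inj]
      grind
    · ext <;> simp

end Pool.Agent.Results.MP_703902_co.Ladder
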